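import Pool.Agent.W538.Hom.Weak

/-! Compactness and connectedness of the first quotient. -/

open Set Filter Topology
open scoped Quaternion

noncomputable section

namespace Pool.Agent.W538.Hom

open Pool.Agent.W538.Sub

lemma continuous_proj : Continuous (proj Sig : XX → MM) := by
  have : LipschitzWith 1 (proj Sig : XX → MM) := by
    apply LipschitzWith.of_dist_le_mul
    intro P Q
    rw [dist_proj, NNReal.coe_one, one_mul]
    exact D_le Sig P Q Sig.one_mem
  exact this.continuous

instance : ConnectedSpace MM := (proj_surj Sig).connectedSpace continuous_proj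

lemma isClosedEmbedding_inc : IsClosedEmbedding (inc dX) := by
  refine IsClosed.isClosedEmbedding_subtypeVal ?_
  change IsClosed {p : F5 | ‖p.fst‖ = 1}
  exact isClosed_eq (cF.continuous.norm) continuous_const

/-- a fundamental domain -/
def KK : Set XX := inc dX ⁻¹' {p : F5 | ‖p‖ ≤ 5}

lemma isCompact_KK : IsCompact KK := by
  apply isClosedEmbedding_inc.isCompact_preimage
  have : {p : F5 | ‖p‖ ≤ 5} = Metric.closedBall 0 5 := by
    ext p; simp
  rw [this]
  exact isCompact_closedBall 0 5

instance : CompactSpace MM := by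
  have h : (proj Sig '' KK) = univ := by
    apply eq_univ_of_forall
    intro a
    obtain ⟨Q, rfl⟩ := proj_surj Sig a
    obtain ⟨y, hy, t, rfl⟩ := exists_mk Q
    set k : ℤ := round (-t / 4) with hk
    have h1 := abs_sub_round (-t / 4)
    rw [← hk] at h1
    have h2 : |t + 4 * (k : ℝ)| ≤ 2 := by
      rw [abs_le] at h1 ⊢
      constructor <;> linarith [h1.1, h1.2]
    have hn : ‖qi ^ k * y‖ = 1 := by rw [norm_mul, norm_zpow_qi, hy, one_mul]
    refine ⟨mk (qi ^ k * y) hn (t + 4 * k), ?_, ?_⟩
    · change ‖pt (qi ^ k * y) (t + 4 * k)‖ ≤ 5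
      have h3 : ‖pt (qi ^ k * y) (t + 4 * k)‖ ^ 2 ≤ 5 ^ 2 := by
        rw [WithLp.prod_norm_sq_eq_of_L2, pt_fst, pt_snd, hn, Real.norm_eq_abs]
        nlinarith [abs_nonneg (t + 4 * (k : ℝ))]
      exact (pow_le_pow_iff_left₀ (norm_nonneg _) (by norm_num) two_ne_zero).1 h3
    · symm
      rw [proj_eq_iff]
      exact ⟨sig ^ k, Sig.zpow_mem (Subgroup.mem_zpowers sig) k, sig_zpow k y hy t⟩
  rw [← isCompact_univ_iff, ← h]
  exact isCompact_KK.image continuous_proj

end Pool.Agent.W538.Hom
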