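import Mathlib

/-! Riemannian coverings in the language of metric spaces. -/

open Set

noncomputable section

namespace Pool.Agent.W538.Hom

/-- `p : X → Q` is the quotient of `X` by the group `G` of isometries of `X`, which acts freely and
properly discontinuously (every point has an open neighbourhood which is disjoint from its images
under the elements of `G` other than `1`), and `Q` has the quotient distance (the distance of two
points of `Q` is the distance of the corresponding orbits). -/
structure IsRiemannianCovering {X Q : Type} [MetricSpace X] [MetricSpace Q]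
    (G : Subgroup (X ≃ᵢ X)) (p : X → Q) : Prop where
  properly_discontinuous : ∀ x : X, ∃ U : Set X, IsOpen U ∧ x ∈ U ∧
    ∀ g ∈ G, g ≠ 1 → Disjoint U (g '' U)
  surjective : Function.Surjective p
  eq_iff : ∀ x y : X, p x = p y ↔ ∃ g ∈ G, g x = y
  isGLB_dist : ∀ x y : X, IsGLB {r : ℝ | ∃ g ∈ G, r = dist x (g y)} (dist (p x) (p y))

/-- any two points of `M` are interchanged by an isometry of `M`. -/
def WeaklySymmetric (M : Type) [MetricSpace M] : Prop :=
  ∀ x y : M, ∃ f : M ≃ᵢ M, f x = y ∧ f y = x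

/-- the isometry group acts transitively on `M`. -/
def Homogeneous (M : Type) [MetricSpace M] : Prop := ∀ x y : M, ∃ f : M ≃ᵢ M, f x = y

/-- the isometry `f` has constant displacement. -/
def ConstantDisplacement {M : Type} [MetricSpace M] (f : M ≃ᵢ M) : Prop :=
  ∀ x y : M, dist x (f x) = dist y (f y)

section quotient

variable {X : Type} [MetricSpace X] (G : Subgroup (X ≃ᵢ X))

/-- every element other than `1` moves the point `x` by at least some `ε > 0`. -/
def Cov : Prop := ∀ x : X, ∃ ε > 0, ∀ g ∈ G, g ≠ 1 → ε ≤ dist x (g x)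

/-- the orbit relation -/
def orb : Setoid X where
  r x y := ∃ g ∈ G, g x = y
  iseqv :=
    { refl := fun x => ⟨1, G.one_mem, rfl⟩
      symm := by
        rintro x y ⟨g, hg, rfl⟩
        exact ⟨g⁻¹, G.inv_mem hg, g.symm_apply_apply x⟩
      trans := by
        rintro x y z ⟨g, hg, rfl⟩ ⟨h, hh, rfl⟩
        exact ⟨h * g, G.mul_mem hh hg, rfl⟩ }

/-- the orbit space -/
def Orb : Type := Quotient (orb G)

/-- the projection -/
def proj (x : X) : Orb G := Quotient.mk (orb G) x

lemma proj_surj : Function.Surjective (proj G) := Quotient.mk_surjective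

lemma proj_eq_iff {x y : X} : proj G x = proj G y ↔ ∃ g ∈ G, g x = y :=
  Quotient.eq (r := orb G)

/-- the distance of orbits -/
def D (x y : X) : ℝ := ⨅ g : G, dist x (g.1 y)

lemma bdd (x y : X) : BddBelow (range fun g : G => dist x (g.1 y)) :=
  ⟨0, by rintro _ ⟨g, rfl⟩; exact dist_nonneg⟩

lemma D_le (x y : X) {g : X ≃ᵢ X} (hg : g ∈ G) : D G x y ≤ dist x (g y) :=
  ciInf_le (bdd G x y) (⟨g, hg⟩ : G)

lemma le_D {x y : X} {r : ℝ} (h : ∀ g ∈ G, r ≤ dist x (g y)) : r ≤ D G x y :=
  le_ciInf fun g => h g.1 g.2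

lemma D_nonneg (x y : X) : 0 ≤ D G x y := le_D G fun _ _ => dist_nonneg

lemma D_symm_le (x y : X) : D G x y ≤ D G y x := by
  refine le_D G fun g hg => ?_
  refine (D_le G x y (G.inv_mem hg)).trans (le_of_eq ?_)
  rw [dist_comm y, ← g.dist_eq x]
  rw [show g (g⁻¹ y) = y from g.apply_symm_apply y]

lemma D_symm (x y : X) : D G x y = D G y x := le_antisymm (D_symm_le G x y) (D_symm_le G y x)

lemma D_triangle (x y z : X) : D G x z ≤ D G x y + D G y z := by
  refine le_of_forall_pos_lt_add fun ε hε => ?_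
  obtain ⟨g, hg⟩ := exists_lt_of_ciInf_lt (show (⨅ g : G, dist x (g.1 y)) < D G x y + ε / 2 by
    change D G x y < _; linarith)
  obtain ⟨h, hh⟩ := exists_lt_of_ciInf_lt (show (⨅ g : G, dist y (g.1 z)) < D G y z + ε / 2 by
    change D G y z < _; linarith)
  have h1 := D_le G x z (G.mul_mem g.2 h.2)
  have h2 : dist x ((g.1 * h.1) z) ≤ dist x (g.1 y) + dist (g.1 y) ((g.1 * h.1) z) :=
    dist_triangle _ _ _
  have h3 : dist (g.1 y) ((g.1 * h.1) z) = dist y (h.1 z) := g.1.dist_eq y (h.1 z)
  linarith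

lemma D_lt {x y : X} {r : ℝ} (h : D G x y < r) : ∃ g ∈ G, dist x (g y) < r := by
  obtain ⟨g, hg⟩ := exists_lt_of_ciInf_lt (show (⨅ g : G, dist x (g.1 y)) < r from h)
  exact ⟨g.1, g.2, hg⟩

lemma D_smul_right (x y : X) {h : X ≃ᵢ X} (hh : h ∈ G) : D G x (h y) = D G x y := by
  apply le_antisymm
  · refine le_D G fun g hg => ?_
    refine (D_le G x (h y) (G.mul_mem hg (G.inv_mem hh))).trans (le_of_eq ?_)
    rw [show (g * h⁻¹) (h y) = g y from congrArg g (h.symm_apply_apply y)]
  · refine le_D G fun g hg => ?_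
    exact D_le G x y (G.mul_mem hg hh)

lemma D_smul_left (x y : X) {h : X ≃ᵢ X} (hh : h ∈ G) : D G (h x) y = D G x y := by
  rw [D_symm, D_smul_right G y x hh, D_symm]

variable {G}

lemma eq_of_D (hG : Cov G) {x y : X} (h : D G x y = 0) : ∃ g ∈ G, g x = y := by
  obtain ⟨ε, hε, hy⟩ := hG y
  obtain ⟨g, hg, hgx⟩ := D_lt G (show D G x y < ε / 2 by linarith)
  have key : ∀ δ, 0 < δ → dist x (g y) < δ := by
    intro δ hδ
    obtain ⟨k, hk, hkx⟩ := D_lt G (show D G x y < min δ (ε / 2) by
      rw [h]; exact lt_min hδ (by linarith))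
    by_cases hgk : g⁻¹ * k = 1
    · have : g = k := inv_mul_eq_one.1 hgk
      rw [this]
      exact hkx.trans_le (min_le_left _ _)
    · exfalso
      have h1 := hy _ (G.mul_mem (G.inv_mem hg) hk) hgk
      have h2 : dist y ((g⁻¹ * k) y) = dist (g y) (k y) := by
        rw [← g.dist_eq y]
        congr 1
        exact g.apply_symm_apply (k y)
      have h3 := dist_triangle_left (g y) (k y) x
      have h4 := hkx.trans_le (min_le_right _ _)
      linarith
  have h0 : x = g y := by
    apply eq_of_dist_eq_zero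
    by_contra hne
    have hpos : 0 < dist x (g y) := lt_of_le_of_ne dist_nonneg (Ne.symm hne)
    exact lt_irrefl _ (key _ hpos)
  exact ⟨g⁻¹, G.inv_mem hg, by rw [h0]; exact g.symm_apply_apply y⟩

/-- the quotient distance -/
def quotDist (G : Subgroup (X ≃ᵢ X)) : Orb G → Orb G → ℝ :=
  Quotient.lift₂ (D G) (by
    rintro a b a' b' ⟨g, hg, rfl⟩ ⟨h, hh, rfl⟩
    rw [D_smul_left G _ _ hg, D_smul_right G _ _ hh])

lemma quotDist_proj (x y : X) : quotDist G (proj G x) (proj G y) = D G x y := rfl

/-- the quotient metric -/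
@[reducible] def quotMet (hG : Cov G) : MetricSpace (Orb G) where
  dist := quotDist G
  dist_self := by
    intro q
    obtain ⟨x, rfl⟩ := proj_surj G q
    apply le_antisymm _ (D_nonneg G x x)
    have := D_le G x x G.one_mem
    simpa using this
  dist_comm := by
    intro p q
    obtain ⟨x, rfl⟩ := proj_surj G p
    obtain ⟨y, rfl⟩ := proj_surj G q
    exact D_symm G x y
  dist_triangle := by
    intro p q r
    obtain ⟨x, rfl⟩ := proj_surj G p
    obtain ⟨y, rfl⟩ := proj_surj G q
    obtain ⟨z, rfl⟩ := proj_surj G r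
    exact D_triangle G x y z
  eq_of_dist_eq_zero := by
    intro p q h
    obtain ⟨x, rfl⟩ := proj_surj G p
    obtain ⟨y, rfl⟩ := proj_surj G q
    exact (proj_eq_iff G).2 (eq_of_D hG h)

/-- the projection is a Riemannian covering -/
lemma isRiemannianCovering_proj (hG : Cov G) :
    letI := quotMet hG
    IsRiemannianCovering G (proj G) := by
  let _ := quotMet hG
  refine ⟨?_, proj_surj G, fun x y => proj_eq_iff G, ?_⟩
  · intro x
    obtain ⟨ε, hε, hx⟩ := hG x
    refine ⟨Metric.ball x (ε / 2), Metric.isOpen_ball, Metric.mem_ball_self (by linarith), ?_⟩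
    intro g hg h1
    rw [Set.disjoint_left]
    rintro _ hy ⟨z, hz, rfl⟩
    have h2 := hx g hg h1
    have h3 : dist (g z) x < ε / 2 := hy
    have h4 : dist z x < ε / 2 := hz
    have h5 : dist (g z) (g x) = dist z x := g.dist_eq z x
    have h6 := dist_triangle_left x (g x) (g z)
    linarith
  · intro x y
    constructor
    · rintro _ ⟨g, hg, rfl⟩
      exact D_le G x y hg
    · intro r hr
      exact le_D G fun g hg => hr ⟨g, hg, rfl⟩

/-- a normalising isometry descends -/
def desc (hG : Cov G) (f : X ≃ᵢ X) (h1 : ∀ g ∈ G, f * g * f⁻¹ ∈ G) (h2 : ∀ g ∈ G, f⁻¹ * g * f ∈ G) :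
    letI := quotMet hG
    Orb G ≃ᵢ Orb G :=
  letI := quotMet hG
  { toFun := Quotient.map f (by
      rintro a b ⟨g, hg, rfl⟩
      refine ⟨_, h1 g hg, ?_⟩
      change f (g (f.symm (f a))) = f (g a)
      rw [f.symm_apply_apply])
    invFun := Quotient.map f.symm (by
      rintro a b ⟨g, hg, rfl⟩
      refine ⟨_, h2 g hg, ?_⟩
      change f.symm (g (f (f.symm a))) = f.symm (g a)
      rw [f.apply_symm_apply])
    left_inv := by
      intro q
      obtain ⟨x, rfl⟩ := proj_surj G q
      exact congrArg (proj G) (f.symm_apply_apply x)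
    right_inv := by
      intro q
      obtain ⟨x, rfl⟩ := proj_surj G q
      exact congrArg (proj G) (f.apply_symm_apply x)
    isometry_toFun := by
      apply Isometry.of_dist_eq
      intro p q
      obtain ⟨x, rfl⟩ := proj_surj G p
      obtain ⟨y, rfl⟩ := proj_surj G q
      change D G (f x) (f y) = D G x y
      apply le_antisymm
      · refine le_D G fun g hg => ?_
        refine (D_le G (f x) (f y) (h1 g hg)).trans (le_of_eq ?_)
        change dist (f x) (f (g (f.symm (f y)))) = _
        rw [f.symm_apply_apply, f.dist_eq]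
      · refine le_D G fun g hg => ?_
        refine (D_le G x y (h2 g hg)).trans (le_of_eq ?_)
        change dist x (f.symm (g (f y))) = _
        rw [← f.dist_eq, f.apply_symm_apply] }

lemma desc_proj (hG : Cov G) (f : X ≃ᵢ X) (h1 : ∀ g ∈ G, f * g * f⁻¹ ∈ G)
    (h2 : ∀ g ∈ G, f⁻¹ * g * f ∈ G) (x : X) :
    letI := quotMet hG
    desc hG f h1 h2 (proj G x) = proj G (f x) := rfl

end quotient

end Pool.Agent.W538.Hom
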