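import Pool.Agent.W538.Hom.Sph

/-! The distance of the Riemannian product of the unit sphere of the quaternions and the line. -/

open Bundle Bornology Set MeasureTheory Manifold Filter Topology
open scoped ENNReal ContDiff Manifold NNReal Quaternion

noncomputable section

namespace Pool.Agent.W538.Hom
set_option maxSynthPendingDepth 3
set_option linter.unusedSectionVars false
set_option linter.unusedVariables false

open Pool.Agent.W538.Sub Pool.Agent.Helper562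

/-- the angle of two unit quaternions -/
def ang (x y : ℍ[ℝ]) : ℝ := Real.arccos (inner ℝ x y)

lemma ang_nonneg (x y : ℍ[ℝ]) : 0 ≤ ang x y := Real.arccos_nonneg _

lemma abs_inner_le_one {x y : ℍ[ℝ]} (hx : ‖x‖ = 1) (hy : ‖y‖ = 1) : |inner ℝ x y| ≤ 1 := by
  have := abs_real_inner_le_norm x y
  rwa [hx, hy, one_mul] at this

lemma cos_ang {x y : ℍ[ℝ]} (hx : ‖x‖ = 1) (hy : ‖y‖ = 1) : Real.cos (ang x y) = inner ℝ x y := by
  have := abs_le.1 (abs_inner_le_one hx hy)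
  exact Real.cos_arccos this.1 this.2

lemma sq_norm_eq {x : ℍ[ℝ]} (hx : ‖x‖ = 1) : inner ℝ x x = (1 : ℝ) := by
  rw [real_inner_self_eq_norm_sq, hx]; norm_num

lemma inner_qi_mul (x : ℍ[ℝ]) : inner ℝ x (qi * x) = (0 : ℝ) := by
  rw [Quaternion.inner_def]
  simp only [Quaternion.re_mul, Quaternion.imI_mul, Quaternion.imJ_mul, Quaternion.imK_mul,
    Quaternion.re_star, Quaternion.imI_star, Quaternion.imJ_star, Quaternion.imK_star, qi_re,
    qi_imI, qi_imJ, qi_imK]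
  ring

lemma norm_qi : ‖qi‖ = 1 := by
  have h : ‖qi‖ * ‖qi‖ = 1 := by
    rw [← Quaternion.normSq_eq_norm_mul_self, Quaternion.normSq_def']
    simp
  nlinarith [norm_nonneg qi]

/-- the initial direction of a geodesic -/
lemma exists_dir {x y : ℍ[ℝ]} (hx : ‖x‖ = 1) (hy : ‖y‖ = 1) :
    ∃ n : ℍ[ℝ], ‖n‖ = 1 ∧ inner ℝ x n = (0 : ℝ) ∧
      y = Real.cos (ang x y) • x + Real.sin (ang x y) • n := by
  have hc := cos_ang hx hy
  have h1 : ‖y - Real.cos (ang x y) • x‖ ^ 2 = Real.sin (ang x y) ^ 2 := by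
    rw [norm_sub_sq_real, norm_smul, inner_smul_right, real_inner_comm, hx, hy, ← hc, mul_one,
      Real.norm_eq_abs, sq_abs, Real.sin_sq]
    ring
  by_cases hs : Real.sin (ang x y) = 0
  · refine ⟨qi * x, by rw [norm_mul, norm_qi, hx, one_mul], inner_qi_mul x, ?_⟩
    rw [hs, zero_smul, add_zero]
    rw [hs] at h1
    have h2 : y - Real.cos (ang x y) • x = 0 := by
      rw [← norm_eq_zero]
      exact pow_eq_zero_iff (two_ne_zero) |>.1 (by rw [h1]; norm_num)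
    exact sub_eq_zero.1 h2
  · refine ⟨(Real.sin (ang x y))⁻¹ • (y - Real.cos (ang x y) • x), ?_, ?_, ?_⟩
    · have hpos : 0 < Real.sin (ang x y) := lt_of_le_of_ne
        (Real.sin_nonneg_of_nonneg_of_le_pi (ang_nonneg x y) (Real.arccos_le_pi _)) (Ne.symm hs)
      have h2 : ‖y - Real.cos (ang x y) • x‖ = Real.sin (ang x y) := by
        exact (pow_left_inj₀ (norm_nonneg _) hpos.le two_ne_zero).1 h1
      rw [norm_smul, h2, norm_inv, Real.norm_eq_abs, abs_of_pos hpos, inv_mul_cancel₀ hs]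
    · rw [inner_smul_right, inner_sub_right, inner_smul_right, sq_norm_eq hx, hc]
      ring
    · rw [smul_smul, mul_inv_cancel₀ hs, one_smul]
      abel

/-- the curve in the ambient space -/
def crv (x n : ℍ[ℝ]) (θ s h : ℝ) (τ : ℝ) : F5 :=
  Real.cos (τ * θ) • pt x 0 + Real.sin (τ * θ) • pt n 0 + (s + τ * h) • pt 0 1

lemma crv_fst (x n : ℍ[ℝ]) (θ s h τ : ℝ) :
    (crv x n θ s h τ).fst = Real.cos (τ * θ) • x + Real.sin (τ * θ) • n := by
  simp [crv]

lemma crv_snd (x n : ℍ[ℝ]) (θ s h τ : ℝ) : (crv x n θ s h τ).snd = s + τ * h := by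
  simp [crv]

lemma crv_eq (x n : ℍ[ℝ]) (θ s h τ : ℝ) :
    crv x n θ s h τ = pt (Real.cos (τ * θ) • x + Real.sin (τ * θ) • n) (s + τ * h) := by
  apply WithLp.ofLp_injective
  exact Prod.ext (crv_fst x n θ s h τ) (crv_snd x n θ s h τ)

lemma norm_comb {x n : ℍ[ℝ]} (hx : ‖x‖ = 1) (hn : ‖n‖ = 1) (hxn : inner ℝ x n = (0 : ℝ))
    (a b : ℝ) : ‖a • x + b • n‖ ^ 2 = a ^ 2 + b ^ 2 := by
  rw [norm_add_sq_real, norm_smul, norm_smul, inner_smul_left, inner_smul_right, hxn, hx, hn,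
    Real.norm_eq_abs, Real.norm_eq_abs, mul_one, mul_one, sq_abs, sq_abs]
  simp

lemma crv_mem {x n : ℍ[ℝ]} (hx : ‖x‖ = 1) (hn : ‖n‖ = 1) (hxn : inner ℝ x n = (0 : ℝ))
    (θ s h τ : ℝ) : crv x n θ s h τ ∈ dX.S := by
  change ‖(crv x n θ s h τ).fst‖ = 1
  rw [crv_fst]
  have h1 := norm_comb hx hn hxn (Real.cos (τ * θ)) (Real.sin (τ * θ))
  rw [Real.cos_sq_add_sin_sq] at h1
  exact (pow_eq_one_iff_of_nonneg (norm_nonneg _) two_ne_zero).1 h1

lemma hasDerivAt_crv (x n : ℍ[ℝ]) (θ s h τ : ℝ) :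
    HasDerivAt (crv x n θ s h)
      ((-(Real.sin (τ * θ) * θ)) • pt x 0 + (Real.cos (τ * θ) * θ) • pt n 0 + h • pt 0 1) τ := by
  have h0 : HasDerivAt (fun τ : ℝ => τ * θ) θ τ := by
    simpa using (hasDerivAt_id τ).mul_const θ
  have h1 : HasDerivAt (fun τ : ℝ => Real.cos (τ * θ)) (-(Real.sin (τ * θ) * θ)) τ := by
    have := h0.cos
    convert this using 1
    ring
  have h2 : HasDerivAt (fun τ : ℝ => Real.sin (τ * θ)) (Real.cos (τ * θ) * θ) τ := h0.sin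
  have h3 : HasDerivAt (fun τ : ℝ => s + τ * h) h τ := by
    simpa using ((hasDerivAt_id τ).mul_const h).const_add s
  exact ((h1.smul_const _).add (h2.smul_const _)).add (h3.smul_const _)

lemma norm_deriv_crv {x n : ℍ[ℝ]} (hx : ‖x‖ = 1) (hn : ‖n‖ = 1) (hxn : inner ℝ x n = (0 : ℝ))
    (θ h τ : ℝ) :
    ‖((-(Real.sin (τ * θ) * θ)) • pt x 0 + (Real.cos (τ * θ) * θ) • pt n 0 + h • pt 0 1 : F5)‖ =
      Real.sqrt (θ ^ 2 + h ^ 2) := by
  rw [eq_comm, Real.sqrt_eq_iff_mul_self_eq (by positivity) (norm_nonneg _), ← sq,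
    WithLp.prod_norm_sq_eq_of_L2]
  have e1 : ((-(Real.sin (τ * θ) * θ)) • pt x 0 + (Real.cos (τ * θ) * θ) • pt n 0 + h • pt 0 1 :
      F5).fst = (-(Real.sin (τ * θ) * θ)) • x + (Real.cos (τ * θ) * θ) • n := by simp
  have e2 : ((-(Real.sin (τ * θ) * θ)) • pt x 0 + (Real.cos (τ * θ) * θ) • pt n 0 + h • pt 0 1 :
      F5).snd = h := by simp
  rw [e1, e2, norm_comb hx hn hxn, Real.norm_eq_abs, sq_abs]
  have := Real.sin_sq_add_cos_sq (τ * θ)
  linear_combination (-θ ^ 2) * this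

/-- the curve in the manifold -/
def cv {x n : ℍ[ℝ]} (hx : ‖x‖ = 1) (hn : ‖n‖ = 1) (hxn : inner ℝ x n = (0 : ℝ))
    (θ s h τ : ℝ) : XX := ⟨crv x n θ s h τ, crv_mem hx hn hxn θ s h τ⟩

lemma contDiff_crv (x n : ℍ[ℝ]) (θ s h : ℝ) : ContDiff ℝ ∞ (crv x n θ s h) := by
  have h1 : ContDiff ℝ ∞ (fun τ : ℝ => Real.cos (τ * θ)) := by fun_prop
  have h2 : ContDiff ℝ ∞ (fun τ : ℝ => Real.sin (τ * θ)) := by fun_prop
  have h3 : ContDiff ℝ ∞ (fun τ : ℝ => s + τ * h) := by fun_prop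
  exact ((h1.smul contDiff_const).add (h2.smul contDiff_const)).add (h3.smul contDiff_const)

lemma cv_zero {x n : ℍ[ℝ]} (hx : ‖x‖ = 1) (hn : ‖n‖ = 1) (hxn : inner ℝ x n = (0 : ℝ))
    (θ s h : ℝ) : cv hx hn hxn θ s h 0 = mk x hx s := by
  apply Subtype.ext
  change crv x n θ s h 0 = pt x s
  rw [crv_eq]
  simp

lemma cv_one {x y n : ℍ[ℝ]} (hx : ‖x‖ = 1) (hy : ‖y‖ = 1) (hn : ‖n‖ = 1)
    (hxn : inner ℝ x n = (0 : ℝ)) (s t : ℝ)
    (h : y = Real.cos (ang x y) • x + Real.sin (ang x y) • n) :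
    cv hx hn hxn (ang x y) s (t - s) 1 = mk y hy t := by
  apply Subtype.ext
  change crv x n (ang x y) s (t - s) 1 = pt y t
  rw [crv_eq, one_mul, one_mul, ← h]
  congr 1
  ring

lemma continuous_cv {x n : ℍ[ℝ]} (hx : ‖x‖ = 1) (hn : ‖n‖ = 1) (hxn : inner ℝ x n = (0 : ℝ))
    (θ s h : ℝ) : Continuous (cv hx hn hxn θ s h) :=
  (contDiff_crv x n θ s h).continuous.subtype_mk _

instance : PathConnectedSpace XX := by
  refine ⟨⟨mk 1 (by simp) 0⟩, ?_⟩
  intro p q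
  obtain ⟨x, hx, s, rfl⟩ := exists_mk p
  obtain ⟨y, hy, t, rfl⟩ := exists_mk q
  obtain ⟨n, hn, hxn, h⟩ := exists_dir hx hy
  exact ⟨{ toFun := fun τ => cv hx hn hxn (ang x y) s (t - s) τ.1
           continuous_toFun := (continuous_cv _ _ _ _ _ _).comp continuous_subtype_val
           source' := cv_zero hx hn hxn _ _ _
           target' := cv_one hx hy hn hxn s t h }⟩

instance instMet : MetricSpace XX := met dX

lemma edist_eq (p q : XX) :
    letI := rb dX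
    edist p q = riemannianEDist 𝓘(ℝ, E4) p q := rfl

/-- upper bound of the distance -/
lemma dist_le {x y : ℍ[ℝ]} (hx : ‖x‖ = 1) (hy : ‖y‖ = 1) (s t : ℝ) :
    dist (mk x hx s) (mk y hy t) ≤ Real.sqrt (ang x y ^ 2 + (t - s) ^ 2) := by
  obtain ⟨n, hn, hxn, h⟩ := exists_dir hx hy
  let _ := rb dX
  have h1 : riemannianEDist 𝓘(ℝ, E4) (cv hx hn hxn (ang x y) s (t - s) 0)
      (cv hx hn hxn (ang x y) s (t - s) 1) ≤
      ENNReal.ofReal (Real.sqrt (ang x y ^ 2 + (t - s) ^ 2)) := by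
    apply Imm.riemannianEDist_le_of_curve (inc dX) (contMDiff_inc dX) (enorm_eq dX)
    · intro τ hτ
      apply contMDiffWithinAt_of_inc dX (by simp)
      exact ((contDiff_crv x n (ang x y) s (t - s)).of_le (by simp)).contDiffWithinAt
    · intro τ hτ
      have h2 : derivWithin (inc dX ∘ cv hx hn hxn (ang x y) s (t - s)) (Icc 0 1) τ =
          ((-(Real.sin (τ * ang x y) * ang x y)) • pt x 0 +
            (Real.cos (τ * ang x y) * ang x y) • pt n 0 + (t - s) • pt 0 1 : F5) :=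
        (hasDerivAt_crv x n (ang x y) s (t - s) τ).hasDerivWithinAt.derivWithin
          (uniqueDiffOn_Icc zero_lt_one τ hτ)
      rw [h2, ← ofReal_norm, norm_deriv_crv hx hn hxn]
  rw [cv_zero, cv_one hx hy hn hxn s t h] at h1
  have h3 : edist (mk x hx s) (mk y hy t) ≤
      ENNReal.ofReal (Real.sqrt (ang x y ^ 2 + (t - s) ^ 2)) := h1
  rw [edist_dist] at h3
  exact (ENNReal.ofReal_le_ofReal_iff (Real.sqrt_nonneg _)).1 h3

/-- the test function -/
def tf (x : ℍ[ℝ]) (α β r : ℝ) (p : F5) : ℝ :=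
  α * Real.arccos (r * inner ℝ (pt x 0) p) + β * p.snd

lemma inner_pt (x : ℍ[ℝ]) (p : F5) : inner ℝ (pt x 0) p = (inner ℝ x p.fst : ℝ) := by
  rw [WithLp.prod_inner_apply]
  simp

lemma arg_lt {x : ℍ[ℝ]} (hx : ‖x‖ = 1) {r : ℝ} (hr0 : 0 ≤ r) (hr : r < 1) {p : F5}
    (hp : ‖p.fst‖ = 1) : |r * inner ℝ (pt x 0) p| < 1 := by
  rw [inner_pt, abs_mul, abs_of_nonneg hr0]
  have := abs_inner_le_one hx hp
  have h0 := abs_nonneg (inner ℝ x p.fst : ℝ)
  nlinarith

lemma tf_bound {x u w1 : ℍ[ℝ]} (hx : ‖x‖ = 1) (hu : ‖u‖ = 1) (huw : inner ℝ u w1 = (0 : ℝ))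
    {α β r w2 : ℝ} (hab : α ^ 2 + β ^ 2 = 1) (hr0 : 0 ≤ r) (hr : r < 1) :
    |α * (-(1 / Real.sqrt (1 - (r * inner ℝ x u) ^ 2)) * (r * inner ℝ x w1)) + β * w2| ≤
      Real.sqrt (‖w1‖ ^ 2 + w2 ^ 2) := by
  set a : ℝ := inner ℝ x u with ha
  have ha1 : |a| ≤ 1 := abs_inner_le_one hx hu
  have ha2 : a ^ 2 ≤ 1 := by rw [← sq_abs]; nlinarith [abs_nonneg a]
  have h1 : (inner ℝ x w1 : ℝ) ^ 2 ≤ (1 - a ^ 2) * ‖w1‖ ^ 2 := by
    have e1 : (inner ℝ (x - a • u) w1 : ℝ) = inner ℝ x w1 := by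
      rw [inner_sub_left, inner_smul_left, huw]; simp
    have e2 : ‖x - a • u‖ ^ 2 = 1 - a ^ 2 := by
      rw [norm_sub_sq_real, norm_smul, inner_smul_right, hx, hu, ← ha, Real.norm_eq_abs, mul_one,
        sq_abs]
      ring
    have e3 := abs_real_inner_le_norm (x - a • u) w1
    rw [← e1, ← e2, ← sq_abs, ← mul_pow]
    gcongr
  have hs : 0 < 1 - (r * a) ^ 2 := by
    have : (r * a) ^ 2 ≤ r ^ 2 := by
      rw [mul_pow]; nlinarith [sq_nonneg r]
    nlinarith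
  have h2 : (1 / Real.sqrt (1 - (r * a) ^ 2) * (r * inner ℝ x w1)) ^ 2 ≤ ‖w1‖ ^ 2 := by
    rw [mul_pow, div_pow, Real.sq_sqrt hs.le, one_pow, one_div, ← div_eq_inv_mul, div_le_iff₀ hs,
      mul_pow]
    have h3 : r ^ 2 ≤ 1 := by nlinarith
    have h4 : r ^ 2 * (inner ℝ x w1 : ℝ) ^ 2 ≤ r ^ 2 * ((1 - a ^ 2) * ‖w1‖ ^ 2) := by gcongr
    nlinarith [sq_nonneg ‖w1‖]
  apply Real.abs_le_sqrt
  set z : ℝ := 1 / Real.sqrt (1 - (r * a) ^ 2) * (r * inner ℝ x w1) with hz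
  have e : α * (-(1 / Real.sqrt (1 - (r * a) ^ 2)) * (r * inner ℝ x w1)) + β * w2 =
      -(α * z) + β * w2 := by rw [hz]; ring
  rw [e]
  nlinarith [sq_nonneg (α * w2 + β * z), sq_nonneg (α * z), sq_nonneg (β * w2)]

/-- the first component -/
def cF : F5 →L[ℝ] ℍ[ℝ] := LinearMap.toContinuousLinearMap
  { toFun := fun p => p.fst, map_add' := fun _ _ => rfl, map_smul' := fun _ _ => rfl }

/-- lower bound of the distance by the test functions -/
lemma tf_le {x y : ℍ[ℝ]} (hx : ‖x‖ = 1) (hy : ‖y‖ = 1) (s t : ℝ)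
    {α β r : ℝ} (hab : α ^ 2 + β ^ 2 = 1) (hr0 : 0 ≤ r) (hr : r < 1) :
    tf x α β r (pt y t) - tf x α β r (pt x s) ≤ dist (mk x hx s) (mk y hy t) := by
  let _ := rb dX
  refine le_trans (le_abs_self _) ?_
  rw [← ENNReal.ofReal_le_ofReal_iff dist_nonneg, ← edist_dist]
  change _ ≤ riemannianEDist 𝓘(ℝ, E4) (mk x hx s) (mk y hy t)
  apply le_of_forall_gt
  intro R hR
  obtain ⟨c, h0, h1, hc, hlt⟩ := exists_lt_of_riemannianEDist_lt hR
  rw [Imm.pathELength_eq (inc dX) (contMDiff_inc dX) (enorm_eq dX) c hc] at hlt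
  refine lt_of_le_of_lt ?_ hlt
  have hcd : ContDiffOn ℝ 1 (inc dX ∘ c) (Icc 0 1) := by
    rw [← contMDiffOn_iff_contDiffOn]
    exact ((contMDiff_inc dX).of_le (by simp)).comp_contMDiffOn hc
  set u : ℝ → F5 := inc dX ∘ c with hu
  have hum : ∀ τ, ‖(u τ).fst‖ = 1 := fun τ => (c τ).2
  have hFd : ContDiffOn ℝ 1 (fun τ => tf x α β r (u τ)) (Icc 0 1) := by
    intro τ hτ
    have hin : ContDiffWithinAt ℝ 1 (fun τ => r * inner ℝ (pt x 0) (u τ)) (Icc 0 1) τ :=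
      contDiffWithinAt_const.mul (contDiffWithinAt_const.inner ℝ (hcd τ hτ))
    have hlt := abs_lt.1 (arg_lt hx hr0 hr (hum τ))
    have hac : ContDiffWithinAt ℝ 1 (fun τ => Real.arccos (r * inner ℝ (pt x 0) (u τ)))
        (Icc 0 1) τ := by
      have h := Real.contDiffAt_arccos (n := 1) (x := r * inner ℝ (pt x 0) (u τ)) (by linarith)
        (by linarith)
      exact ContDiffAt.comp_contDiffWithinAt (g := Real.arccos)
        (f := fun τ => r * inner ℝ (pt x 0) (u τ)) τ h hin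
    have hsd : ContDiffWithinAt ℝ 1 (fun τ => (u τ).snd) (Icc 0 1) τ :=
      c4.contDiff.contDiffAt.comp_contDiffWithinAt τ (hcd τ hτ)
    exact (contDiffWithinAt_const.mul hac).add (contDiffWithinAt_const.mul hsd)
  have key := enorm_sub_le_lintegral_derivWithin_Icc_of_contDiffOn_Icc hFd zero_le_one
  have e0 : u 0 = pt x s := by rw [hu]; simp [h0, inc_mk]
  have e1 : u 1 = pt y t := by rw [hu]; simp [h1, inc_mk]
  simp only [e0, e1] at key
  rw [← ofReal_norm, Real.norm_eq_abs] at key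
  refine key.trans ?_
  apply setLIntegral_mono' measurableSet_Icc
  intro τ hτ
  have hda : DifferentiableWithinAt ℝ u (Icc 0 1) τ := (hcd τ hτ).differentiableWithinAt (by simp)
  set w : F5 := derivWithin u (Icc 0 1) τ with hw
  have hdw : HasDerivWithinAt u w (Icc 0 1) τ := hda.hasDerivWithinAt
  have hin : HasDerivWithinAt (fun τ => r * (inner ℝ (pt x 0) (u τ) : ℝ))
      (r * inner ℝ (pt x 0) w) (Icc 0 1) τ := by
    have := (((innerSL ℝ (pt x 0)).hasFDerivAt (x := u τ)).comp_hasDerivWithinAt τ hdw)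
    exact this.const_mul r
  have hsd : HasDerivWithinAt (fun τ => (u τ).snd) w.snd (Icc 0 1) τ :=
    (c4.hasFDerivAt (x := u τ)).comp_hasDerivWithinAt τ hdw
  have hlt := abs_lt.1 (arg_lt hx hr0 hr (hum τ))
  have hac := (Real.hasDerivAt_arccos (x := r * inner ℝ (pt x 0) (u τ)) (by linarith)
        (by linarith)).comp_hasDerivWithinAt τ hin
  have hF := ((hac.const_mul α).add (hsd.const_mul β)).derivWithin
    (uniqueDiffOn_Icc zero_lt_one τ hτ)
  have hort : (inner ℝ (u τ).fst w.fst : ℝ) = 0 := by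
    have hf : HasDerivWithinAt (fun τ => (u τ).fst) w.fst (Icc 0 1) τ :=
      (cF.hasFDerivAt (x := u τ)).comp_hasDerivWithinAt τ hdw
    have h1 := (hf.inner ℝ hf).derivWithin (uniqueDiffOn_Icc zero_lt_one τ hτ)
    have h2 : (fun τ => (inner ℝ (u τ).fst (u τ).fst : ℝ)) = fun _ => 1 := by
      funext τ
      exact sq_norm_eq (hum τ)
    rw [h2] at h1
    have h3 : derivWithin (fun _ : ℝ => (1 : ℝ)) (Icc 0 1) τ = 0 := by simp
    have h4 := real_inner_comm (u τ).fst w.fst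
    rw [h3] at h1
    linarith
  have hF' : derivWithin (fun τ => tf x α β r (u τ)) (Icc 0 1) τ =
    α * (-(1 / Real.sqrt (1 - (r * inner ℝ x (u τ).fst) ^ 2)) * (r * inner ℝ x w.fst)) +
      β * w.snd := by
    rw [← inner_pt, ← inner_pt]
    exact hF
  rw [hF', ← ofReal_norm, ← ofReal_norm]
  apply ENNReal.ofReal_le_ofReal
  rw [Real.norm_eq_abs]
  refine (tf_bound hx (hum τ) hort hab hr0 hr).trans (le_of_eq ?_)
  rw [← Real.sqrt_sq (norm_nonneg w), WithLp.prod_norm_sq_eq_of_L2, Real.norm_eq_abs, sq_abs]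

lemma le_dist_aux {x y : ℍ[ℝ]} (hx : ‖x‖ = 1) (hy : ‖y‖ = 1) (s t : ℝ)
    {α β : ℝ} (hab : α ^ 2 + β ^ 2 = 1) :
    α * ang x y + β * (t - s) ≤ dist (mk x hx s) (mk y hy t) := by
  have hcont : Continuous (fun r : ℝ => α * (Real.arccos (r * inner ℝ x y) - Real.arccos r) +
      β * (t - s)) := by
    have h1 : Continuous (fun r : ℝ => Real.arccos (r * inner ℝ x y)) :=
      Real.continuous_arccos.comp (continuous_id.mul continuous_const)
    have h2 := Real.continuous_arccos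
    exact (continuous_const.mul (h1.sub h2)).add continuous_const
  have ht : Tendsto (fun r : ℝ => α * (Real.arccos (r * inner ℝ x y) - Real.arccos r) +
      β * (t - s)) (𝓝[<] 1) (𝓝 (α * (Real.arccos (1 * inner ℝ x y) - Real.arccos 1) +
      β * (t - s))) := (hcont.tendsto 1).mono_left nhdsWithin_le_nhds
  rw [one_mul, Real.arccos_one, sub_zero] at ht
  refine le_of_tendsto ht ?_
  have hev : ∀ᶠ r : ℝ in 𝓝[<] 1, r ∈ Ioo (0 : ℝ) 1 :=
    Ioo_mem_nhdsLT (by norm_num)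
  filter_upwards [hev] with r hr
  refine le_trans (le_of_eq ?_) (tf_le hx hy s t hab hr.1.le hr.2)
  unfold tf
  rw [inner_pt, inner_pt, pt_fst, pt_fst, sq_norm_eq hx, pt_snd, pt_snd]
  ring

/-- the distance -/
lemma dist_eq {x y : ℍ[ℝ]} (hx : ‖x‖ = 1) (hy : ‖y‖ = 1) (s t : ℝ) :
    dist (mk x hx s) (mk y hy t) = Real.sqrt (ang x y ^ 2 + (t - s) ^ 2) := by
  apply le_antisymm (dist_le hx hy s t)
  set R := Real.sqrt (ang x y ^ 2 + (t - s) ^ 2) with hR
  have hR2 : R ^ 2 = ang x y ^ 2 + (t - s) ^ 2 := Real.sq_sqrt (by positivity)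
  rcases eq_or_lt_of_le (Real.sqrt_nonneg (ang x y ^ 2 + (t - s) ^ 2)) with h | h
  · rw [hR, ← h]; exact dist_nonneg
  · have h' : 0 < R := h
    have h1 := le_dist_aux hx hy s t (α := ang x y / R) (β := (t - s) / R) (by
      field_simp
      linarith)
    refine le_trans (le_of_eq ?_) h1
    field_simp
    linarith

end Pool.Agent.W538.Hom
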