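import Pool.Agent.W538.Hom.Dist
import Pool.Agent.W538.Hom.Defs

/-! The groups and the quotients. -/

open Set Filter Topology
open scoped Quaternion

noncomputable section

namespace Pool.Agent.W538.Hom

lemma inner_mul_mul {p q : ℍ[ℝ]} (hp : ‖p‖ = 1) (hq : ‖q‖ = 1) (x y : ℍ[ℝ]) :
    inner ℝ (p * x * q) (p * y * q) = (inner ℝ x y : ℝ) := by
  have h : p * x * q + p * y * q = p * (x + y) * q := by rw [mul_add, add_mul]
  rw [real_inner_eq_norm_add_mul_self_sub_norm_mul_self_sub_norm_mul_self_div_two,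
    real_inner_eq_norm_add_mul_self_sub_norm_mul_self_sub_norm_mul_self_div_two x y, h]
  simp only [norm_mul, hp, hq, one_mul, mul_one]

lemma ang_mul_mul {p q : ℍ[ℝ]} (hp : ‖p‖ = 1) (hq : ‖q‖ = 1) (x y : ℍ[ℝ]) :
    ang (p * x * q) (p * y * q) = ang x y := by
  unfold ang
  rw [inner_mul_mul hp hq]

/-- the map `x ↦ p x q`, `s ↦ ε s + a` -/
def tmap (p q : ℍ[ℝ]) (hp : ‖p‖ = 1) (hq : ‖q‖ = 1) (ε a : ℝ) (P : XX) : XX :=
  mk (p * P.1.fst * q) (by rw [norm_mul, norm_mul, hp, hq, one_mul, mul_one]; exact P.2)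
    (ε * P.1.snd + a)

lemma norm_mul_mul {p q x : ℍ[ℝ]} (hp : ‖p‖ = 1) (hq : ‖q‖ = 1) (hx : ‖x‖ = 1) :
    ‖p * x * q‖ = 1 := by rw [norm_mul, norm_mul, hp, hq, hx, one_mul, mul_one]

lemma tmap_mk (p q : ℍ[ℝ]) (hp : ‖p‖ = 1) (hq : ‖q‖ = 1) (ε a : ℝ) (x : ℍ[ℝ]) (hx : ‖x‖ = 1)
    (s : ℝ) : tmap p q hp hq ε a (mk x hx s) =
      mk (p * x * q) (norm_mul_mul hp hq hx) (ε * s + a) := rfl

lemma norm_inv_one {p : ℍ[ℝ]} (hp : ‖p‖ = 1) : ‖p⁻¹‖ = 1 := by rw [norm_inv, hp, inv_one]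

lemma ne_zero_of_norm_one {p : ℍ[ℝ]} (hp : ‖p‖ = 1) : p ≠ 0 := by
  rintro rfl
  simp at hp

/-- the isometry `x ↦ p x q`, `s ↦ ε s + a` -/
def T (p q : ℍ[ℝ]) (hp : ‖p‖ = 1) (hq : ‖q‖ = 1) (ε : ℝ) (hε : ε * ε = 1) (a : ℝ) : XX ≃ᵢ XX where
  toFun := tmap p q hp hq ε a
  invFun := tmap p⁻¹ q⁻¹ (norm_inv_one hp) (norm_inv_one hq) ε (-(ε * a))
  left_inv := by
    intro P
    obtain ⟨x, hx, s, rfl⟩ := exists_mk P
    rw [tmap_mk, tmap_mk, mk_eq_iff]
    constructor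
    · have h1 := ne_zero_of_norm_one hp
      have h2 := ne_zero_of_norm_one hq
      rw [mul_assoc p x q, ← mul_assoc p⁻¹ p, inv_mul_cancel₀ h1, one_mul, mul_assoc,
        mul_inv_cancel₀ h2, mul_one]
    · linear_combination s * hε
  right_inv := by
    intro P
    obtain ⟨x, hx, s, rfl⟩ := exists_mk P
    rw [tmap_mk, tmap_mk, mk_eq_iff]
    constructor
    · have h1 := ne_zero_of_norm_one hp
      have h2 := ne_zero_of_norm_one hq
      rw [mul_assoc p⁻¹ x, ← mul_assoc p p⁻¹, mul_inv_cancel₀ h1, one_mul, mul_assoc,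
        inv_mul_cancel₀ h2, mul_one]
    · linear_combination (s - a) * hε
  isometry_toFun := by
    apply Isometry.of_dist_eq
    intro P Q
    obtain ⟨x, hx, s, rfl⟩ := exists_mk P
    obtain ⟨y, hy, t, rfl⟩ := exists_mk Q
    rw [tmap_mk, tmap_mk, dist_eq, dist_eq, ang_mul_mul hp hq]
    congr 2
    linear_combination (t - s) ^ 2 * hε

lemma T_mk (p q : ℍ[ℝ]) (hp : ‖p‖ = 1) (hq : ‖q‖ = 1) (ε : ℝ) (hε : ε * ε = 1) (a : ℝ)
    (x : ℍ[ℝ]) (hx : ‖x‖ = 1) (s : ℝ) : T p q hp hq ε hε a (mk x hx s) =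
      mk (p * x * q) (norm_mul_mul hp hq hx) (ε * s + a) := rfl

lemma norm_zpow_qi (k : ℤ) : ‖qi ^ k‖ = 1 := by rw [norm_zpow, norm_qi, one_zpow]

/-- the generator of the first group -/
def sig : XX ≃ᵢ XX := T qi 1 norm_qi norm_one 1 (by norm_num) 4

/-- the generator of the second group -/
def rho : XX ≃ᵢ XX := T 1 qi norm_one norm_qi 1 (by norm_num) 0

lemma sig_mk (x : ℍ[ℝ]) (hx : ‖x‖ = 1) (s : ℝ) :
    sig (mk x hx s) = mk (qi * x) (by rw [norm_mul, norm_qi, hx, one_mul]) (s + 4) := by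
  unfold sig
  rw [T_mk, mk_eq_iff]
  simp

lemma rho_mk (x : ℍ[ℝ]) (hx : ‖x‖ = 1) (s : ℝ) :
    rho (mk x hx s) = mk (x * qi) (by rw [norm_mul, norm_qi, hx, one_mul]) s := by
  unfold rho
  rw [T_mk, mk_eq_iff]
  simp

lemma qi_ne : qi ≠ 0 := ne_zero_of_norm_one norm_qi

lemma sig_zpow (k : ℤ) (x : ℍ[ℝ]) (hx : ‖x‖ = 1) (s : ℝ) :
    (sig ^ k) (mk x hx s) = mk (qi ^ k * x) (by rw [norm_mul, norm_zpow_qi, hx, one_mul])
      (s + 4 * k) := by
  induction k using Int.induction_on generalizing x s with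
  | zero =>
    simp only [zpow_zero, one_mul, Int.cast_zero, mul_zero, add_zero]
    rfl
  | succ n ih =>
    rw [zpow_add_one]
    change (sig ^ (n : ℤ)) (sig (mk x hx s)) = _
    rw [sig_mk, ih, mk_eq_iff]
    constructor
    · rw [zpow_add_one₀ qi_ne, mul_assoc]
    · push_cast; ring
  | pred n ih =>
    have hs : mk x hx s = sig (mk (qi⁻¹ * x) (by rw [norm_mul, norm_inv_one norm_qi, hx, one_mul])
        (s - 4)) := by
      rw [sig_mk, mk_eq_iff]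
      constructor
      · rw [← mul_assoc, mul_inv_cancel₀ qi_ne, one_mul]
      · ring
    rw [zpow_sub_one]
    change (sig ^ (-(n : ℤ))) (sig.symm (mk x hx s)) = _
    rw [hs, sig.symm_apply_apply, ih, mk_eq_iff]
    constructor
    · rw [zpow_sub_one₀ qi_ne, mul_assoc]
    · push_cast; ring

lemma rho_zpow (k : ℤ) (x : ℍ[ℝ]) (hx : ‖x‖ = 1) (s : ℝ) :
    (rho ^ k) (mk x hx s) = mk (x * qi ^ k) (by rw [norm_mul, norm_zpow_qi, hx, one_mul]) s := by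
  induction k using Int.induction_on generalizing x s with
  | zero =>
    simp only [zpow_zero, mul_one]
    rfl
  | succ n ih =>
    rw [zpow_add_one]
    change (rho ^ (n : ℤ)) (rho (mk x hx s)) = _
    rw [rho_mk, ih, mk_eq_iff]
    refine ⟨?_, rfl⟩
    rw [add_comm (n : ℤ) 1, zpow_one_add₀ qi_ne, mul_assoc]
  | pred n ih =>
    have hs : mk x hx s = rho (mk (x * qi⁻¹) (by rw [norm_mul, norm_inv_one norm_qi, hx, one_mul])
        s) := by
      rw [rho_mk, mk_eq_iff]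
      refine ⟨?_, rfl⟩
      rw [mul_assoc, inv_mul_cancel₀ qi_ne, mul_one]
    rw [zpow_sub_one]
    change (rho ^ (-(n : ℤ))) (rho.symm (mk x hx s)) = _
    rw [hs, rho.symm_apply_apply, ih, mk_eq_iff]
    refine ⟨?_, rfl⟩
    rw [show (-(n : ℤ) - 1) = -1 + -(n : ℤ) by ring, zpow_add₀ qi_ne, zpow_neg_one, mul_assoc]

lemma qi_sq : qi * qi = -1 := by
  ext <;> simp

lemma inv_qi : qi⁻¹ = -qi :=
  inv_eq_of_mul_eq_one_right (by rw [mul_neg, qi_sq, neg_neg])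

lemma qi_zpow_cases (k : ℤ) : qi ^ k = 1 ∨ qi ^ k = qi ∨ qi ^ k = -1 ∨ qi ^ k = -qi := by
  induction k using Int.induction_on with
  | zero => left; exact zpow_zero _
  | succ n ih =>
    rw [zpow_add_one₀ qi_ne]
    rcases ih with h | h | h | h <;> rw [h]
    · right; left; rw [one_mul]
    · right; right; left; exact qi_sq
    · right; right; right; rw [neg_one_mul]
    · left; rw [neg_mul, qi_sq, neg_neg]
  | pred n ih =>
    rw [zpow_sub_one₀ qi_ne, inv_qi]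
    rcases ih with h | h | h | h <;> rw [h]
    · right; right; right; rw [one_mul]
    · left; rw [mul_neg, qi_sq, neg_neg]
    · right; left; rw [neg_one_mul, neg_neg]
    · right; right; left; rw [neg_mul_neg, qi_sq]

/-- the first group -/
def Sig : Subgroup (XX ≃ᵢ XX) := Subgroup.zpowers sig

lemma abs_le_dist {x y : ℍ[ℝ]} (hx : ‖x‖ = 1) (hy : ‖y‖ = 1) (s t : ℝ) :
    |t - s| ≤ dist (mk x hx s) (mk y hy t) := by
  rw [dist_eq]
  apply Real.abs_le_sqrt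
  nlinarith [sq_nonneg (ang x y)]

lemma four_le {k : ℤ} (hk : k ≠ 0) (x y : ℍ[ℝ]) (hx : ‖x‖ = 1) (hy : ‖y‖ = 1) (s : ℝ) :
    4 ≤ dist (mk x hx s) (mk y hy (s + 4 * k)) := by
  refine le_trans ?_ (abs_le_dist hx hy s (s + 4 * k))
  have h1 : (1 : ℝ) ≤ |(k : ℝ)| := by exact_mod_cast Int.one_le_abs hk
  rw [show s + 4 * (k : ℝ) - s = 4 * k by ring, abs_mul, abs_of_pos (by norm_num : (0 : ℝ) < 4)]
  linarith

lemma cov_Sig : Cov Sig := by
  intro P
  refine ⟨4, by norm_num, ?_⟩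
  rintro g ⟨k, rfl⟩ hg
  obtain ⟨x, hx, s, rfl⟩ := exists_mk P
  have hk : k ≠ 0 := by
    rintro rfl
    exact hg (zpow_zero _)
  change 4 ≤ dist (mk x hx s) ((sig ^ k) (mk x hx s))
  rw [sig_zpow]
  exact four_le hk _ _ _ _ _

/-- the first quotient -/
abbrev MM : Type := Orb Sig

instance : MetricSpace MM := quotMet cov_Sig

lemma dist_proj (P Q : XX) : dist (proj Sig P) (proj Sig Q) = D Sig P Q := rfl

/-- `B σ B⁻¹ = σ⁻¹` implies that `B` normalises the group -/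
lemma norm_of_inv {B : XX ≃ᵢ XX} (h : B * sig * B⁻¹ = sig⁻¹) :
    (∀ g ∈ Sig, B * g * B⁻¹ ∈ Sig) ∧ ∀ g ∈ Sig, B⁻¹ * g * B ∈ Sig := by
  have h' : B⁻¹ * sig * B = sig⁻¹ := by
    have h2 : sig * B = B * sig⁻¹ := by
      have h3 : B * sig = sig⁻¹ * B := by rw [← h]; group
      rw [eq_mul_inv_iff_mul_eq, mul_assoc, h3, mul_inv_cancel_left]
    rw [mul_assoc, h2, inv_mul_cancel_left]
  constructor
  · rintro g ⟨k, rfl⟩
    change B * sig ^ k * B⁻¹ ∈ Sig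
    rw [← conj_zpow, h]
    exact Sig.zpow_mem (Sig.inv_mem (Subgroup.mem_zpowers sig)) k
  · rintro g ⟨k, rfl⟩
    change B⁻¹ * sig ^ k * B ∈ Sig
    have h3 : B⁻¹ * sig ^ k * B = (B⁻¹ * sig * B) ^ k := by
      have := conj_zpow (i := k) (a := B⁻¹) (b := sig)
      rw [inv_inv] at this
      exact this.symm
    rw [h3, h']
    exact Sig.zpow_mem (Sig.inv_mem (Subgroup.mem_zpowers sig)) k

lemma norm_of_comm {B : XX ≃ᵢ XX} (h : B * sig = sig * B) :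
    (∀ g ∈ Sig, B * g * B⁻¹ ∈ Sig) ∧ ∀ g ∈ Sig, B⁻¹ * g * B ∈ Sig := by
  have hc : Commute B sig := h
  constructor
  · rintro g ⟨k, rfl⟩
    change B * sig ^ k * B⁻¹ ∈ Sig
    rw [(hc.zpow_right k).eq, mul_inv_cancel_right]
    exact Sig.zpow_mem (Subgroup.mem_zpowers sig) k
  · rintro g ⟨k, rfl⟩
    change B⁻¹ * sig ^ k * B ∈ Sig
    rw [mul_assoc, ← (hc.zpow_right k).eq, inv_mul_cancel_left]
    exact Sig.zpow_mem (Subgroup.mem_zpowers sig) k

end Pool.Agent.W538.Hom
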