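import Pool.Agent.W538.Sub.Metric

/-! The Riemannian product of the unit sphere of the quaternions and the line. -/

open Bundle Bornology Set MeasureTheory Manifold Filter Topology
open scoped ENNReal ContDiff Manifold NNReal Quaternion

noncomputable section

namespace Pool.Agent.W538.Hom

open Pool.Agent.W538.Sub

/-- four-space -/
abbrev E4 := EuclideanSpace ℝ (Fin 4)

/-- the ambient space -/
abbrev F5 := WithLp 2 (ℍ[ℝ] × ℝ)

/-- the point with components `x` and `s` -/
def pt (x : ℍ[ℝ]) (s : ℝ) : F5 := WithLp.toLp 2 (x, s)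

@[simp] lemma pt_fst (x : ℍ[ℝ]) (s : ℝ) : (pt x s).fst = x := rfl
@[simp] lemma pt_snd (x : ℍ[ℝ]) (s : ℝ) : (pt x s).snd = s := rfl

/-- coordinate -/
def c0 : F5 →L[ℝ] ℝ := LinearMap.toContinuousLinearMap
  { toFun := fun p => p.fst.re, map_add' := fun _ _ => rfl, map_smul' := fun _ _ => rfl }
/-- coordinate -/
def c1 : F5 →L[ℝ] ℝ := LinearMap.toContinuousLinearMap
  { toFun := fun p => p.fst.imI, map_add' := fun _ _ => rfl, map_smul' := fun _ _ => rfl }
/-- coordinate -/
def c2 : F5 →L[ℝ] ℝ := LinearMap.toContinuousLinearMap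
  { toFun := fun p => p.fst.imJ, map_add' := fun _ _ => rfl, map_smul' := fun _ _ => rfl }
/-- coordinate -/
def c3 : F5 →L[ℝ] ℝ := LinearMap.toContinuousLinearMap
  { toFun := fun p => p.fst.imK, map_add' := fun _ _ => rfl, map_smul' := fun _ _ => rfl }
/-- coordinate -/
def c4 : F5 →L[ℝ] ℝ := LinearMap.toContinuousLinearMap
  { toFun := fun p => p.snd, map_add' := fun _ _ => rfl, map_smul' := fun _ _ => rfl }

lemma c0_apply (p : F5) : c0 p = p.fst.re := rfl
lemma c1_apply (p : F5) : c1 p = p.fst.imI := rfl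
lemma c2_apply (p : F5) : c2 p = p.fst.imJ := rfl
lemma c3_apply (p : F5) : c3 p = p.fst.imK := rfl
lemma c4_apply (p : F5) : c4 p = p.snd := rfl

/-- the sign -/
def sgn (b : Bool) : ℝ := if b then 1 else -1

lemma sgn_sq (b : Bool) : sgn b * sgn b = 1 := by cases b <;> simp [sgn]

/-- the unit `i` -/
def qi : ℍ[ℝ] := ⟨0, 1, 0, 0⟩
/-- the unit `j` -/
def qj : ℍ[ℝ] := ⟨0, 0, 1, 0⟩
/-- the unit `k` -/
def qk : ℍ[ℝ] := ⟨0, 0, 0, 1⟩

@[simp] lemma qi_re : qi.re = 0 := rfl
@[simp] lemma qi_imI : qi.imI = 1 := rfl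
@[simp] lemma qi_imJ : qi.imJ = 0 := rfl
@[simp] lemma qi_imK : qi.imK = 0 := rfl
@[simp] lemma qj_re : qj.re = 0 := rfl
@[simp] lemma qj_imI : qj.imI = 0 := rfl
@[simp] lemma qj_imJ : qj.imJ = 1 := rfl
@[simp] lemma qj_imK : qj.imK = 0 := rfl
@[simp] lemma qk_re : qk.re = 0 := rfl
@[simp] lemma qk_imI : qk.imI = 0 := rfl
@[simp] lemma qk_imJ : qk.imJ = 0 := rfl
@[simp] lemma qk_imK : qk.imK = 1 := rfl

/-- the squared norm of the first three coordinates -/
def nn (v : E4) : ℝ := v 0 ^ 2 + v 1 ^ 2 + v 2 ^ 2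

lemma nn_nonneg (v : E4) : 0 ≤ nn v := by unfold nn; positivity

/-- the parametrisation -/
def psi (b : Bool) (v : E4) : F5 :=
  (sgn b * (nn v - 1) / (nn v + 1)) • pt 1 0 + (2 * v 0 / (nn v + 1)) • pt qi 0 +
    (2 * v 1 / (nn v + 1)) • pt qj 0 + (2 * v 2 / (nn v + 1)) • pt qk 0 +
    v 3 • pt 0 1

/-- the chart -/
def phi (b : Bool) (p : F5) : E4 :=
  WithLp.toLp 2 ![c1 p / (1 - sgn b * c0 p), c2 p / (1 - sgn b * c0 p),
    c3 p / (1 - sgn b * c0 p), c4 p]

lemma c0_psi (b : Bool) (v : E4) : c0 (psi b v) = sgn b * (nn v - 1) / (nn v + 1) := by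
  simp [psi, c0_apply]
lemma c1_psi (b : Bool) (v : E4) : c1 (psi b v) = 2 * v 0 / (nn v + 1) := by
  simp [psi, c1_apply]
lemma c2_psi (b : Bool) (v : E4) : c2 (psi b v) = 2 * v 1 / (nn v + 1) := by
  simp [psi, c2_apply]
lemma c3_psi (b : Bool) (v : E4) : c3 (psi b v) = 2 * v 2 / (nn v + 1) := by
  simp [psi, c3_apply]
lemma c4_psi (b : Bool) (v : E4) : c4 (psi b v) = v 3 := by
  simp [psi, c4_apply]

lemma ext_c {p q : F5} (h0 : c0 p = c0 q) (h1 : c1 p = c1 q) (h2 : c2 p = c2 q)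
    (h3 : c3 p = c3 q) (h4 : c4 p = c4 q) : p = q := by
  apply WithLp.ofLp_injective
  refine Prod.ext ?_ h4
  exact Quaternion.ext _ _ h0 h1 h2 h3

lemma norm_sq_fst (p : F5) : ‖p.fst‖ ^ 2 = c0 p ^ 2 + c1 p ^ 2 + c2 p ^ 2 + c3 p ^ 2 := by
  rw [sq, ← Quaternion.normSq_eq_norm_mul_self p.fst, Quaternion.normSq_def']
  rfl

/-- the product of the sphere and the line -/
def SR : Set F5 := {p | ‖p.fst‖ = 1}

lemma mem_SR {p : F5} : p ∈ SR ↔ c0 p ^ 2 + c1 p ^ 2 + c2 p ^ 2 + c3 p ^ 2 = 1 := by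
  rw [← norm_sq_fst]
  constructor
  · intro h
    rw [show ‖p.fst‖ = 1 from h]; norm_num
  · intro h
    exact (pow_eq_one_iff_of_nonneg (norm_nonneg _) two_ne_zero).1 h

lemma contDiff_nn : ContDiff ℝ ∞ nn := by unfold nn; fun_prop

/-- the manifold data -/
def dX : CData F5 E4 where
  S := SR
  ι := Bool
  U b := {p | sgn b * c0 p < 1}
  isOpen_U b := isOpen_lt (by fun_prop) continuous_const
  phi := phi
  psi := psi
  smooth_phi b p hp := by
    have h : (1 - sgn b * c0 p) ≠ 0 := by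
      have : sgn b * c0 p < 1 := hp
      linarith
    rw [contDiffAt_euclidean]
    intro i
    fin_cases i
    · exact (c1.contDiff.contDiffAt).div (contDiff_const.sub
        (contDiff_const.mul c0.contDiff)).contDiffAt h
    · exact (c2.contDiff.contDiffAt).div (contDiff_const.sub
        (contDiff_const.mul c0.contDiff)).contDiffAt h
    · exact (c3.contDiff.contDiffAt).div (contDiff_const.sub
        (contDiff_const.mul c0.contDiff)).contDiffAt h
    · exact c4.contDiff.contDiffAt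
  smooth_psi b := by
    have h : ∀ v, nn v + 1 ≠ 0 := fun v => by have := nn_nonneg v; linarith
    have hn := contDiff_nn
    unfold psi
    have hd : ContDiff ℝ ∞ (fun v : E4 => nn v + 1) := hn.add contDiff_const
    have h0 : ContDiff ℝ ∞ (fun v : E4 => sgn b * (nn v - 1)) :=
      contDiff_const.mul (hn.sub contDiff_const)
    have h1 : ContDiff ℝ ∞ (fun v : E4 => 2 * v 0) := by fun_prop
    have h2 : ContDiff ℝ ∞ (fun v : E4 => 2 * v 1) := by fun_prop
    have h3 : ContDiff ℝ ∞ (fun v : E4 => 2 * v 2) := by fun_prop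
    have h4 : ContDiff ℝ ∞ (fun v : E4 => v 3) := by fun_prop
    refine ContDiff.add (ContDiff.add (ContDiff.add (ContDiff.add ?_ ?_) ?_) ?_) ?_
    · exact (h0.div hd h).smul contDiff_const
    · exact (h1.div hd h).smul contDiff_const
    · exact (h2.div hd h).smul contDiff_const
    · exact (h3.div hd h).smul contDiff_const
    · exact h4.smul contDiff_const
  psi_mem b v := by
    have h : nn v + 1 ≠ 0 := by have := nn_nonneg v; linarith
    rw [mem_SR, c0_psi, c1_psi, c2_psi, c3_psi]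
    have hb := sgn_sq b
    have hn : nn v = v 0 ^ 2 + v 1 ^ 2 + v 2 ^ 2 := rfl
    field_simp
    linear_combination ((nn v - 1) ^ 2) * hb - 4 * hn
  psi_memU b v := by
    have h : 0 < nn v + 1 := by have := nn_nonneg v; linarith
    change sgn b * c0 (psi b v) < 1
    rw [c0_psi]
    have h2 : sgn b * (sgn b * (nn v - 1) / (nn v + 1)) = (nn v - 1) / (nn v + 1) := by
      rw [← mul_div_assoc, ← mul_assoc, sgn_sq, one_mul]
    rw [h2, div_lt_one h]
    linarith
  phi_psi b v := by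
    have h : nn v + 1 ≠ 0 := by have := nn_nonneg v; linarith
    have h2 : 1 - sgn b * (sgn b * (nn v - 1) / (nn v + 1)) = 2 / (nn v + 1) := by
      rw [← mul_div_assoc, ← mul_assoc, sgn_sq, one_mul]
      field_simp; ring
    unfold phi
    rw [c0_psi, c1_psi, c2_psi, c3_psi, c4_psi, h2]
    ext i
    fin_cases i
    · change 2 * v 0 / (nn v + 1) / (2 / (nn v + 1)) = v 0
      field_simp
    · change 2 * v 1 / (nn v + 1) / (2 / (nn v + 1)) = v 1
      field_simp
    · change 2 * v 2 / (nn v + 1) / (2 / (nn v + 1)) = v 2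
      field_simp
    · rfl
  psi_phi b p hp hU := by
    have hb := sgn_sq b
    have hS := mem_SR.1 hp
    have h : (1 - sgn b * c0 p) ≠ 0 := by
      have : sgn b * c0 p < 1 := hU
      linarith
    have e0 : (phi b p) 0 = c1 p / (1 - sgn b * c0 p) := rfl
    have e1 : (phi b p) 1 = c2 p / (1 - sgn b * c0 p) := rfl
    have e2 : (phi b p) 2 = c3 p / (1 - sgn b * c0 p) := rfl
    have e3 : (phi b p) 3 = c4 p := rfl
    have hn : nn (phi b p) + 1 = 2 / (1 - sgn b * c0 p) := by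
      unfold nn
      rw [e0, e1, e2]
      field_simp
      linear_combination hS + (c0 p ^ 2) * hb
    have hn2 : nn (phi b p) - 1 = 2 * (sgn b * c0 p) / (1 - sgn b * c0 p) := by
      have : nn (phi b p) - 1 = (nn (phi b p) + 1) - 2 := by ring
      rw [this, hn]
      field_simp; ring
    apply ext_c
    · rw [c0_psi, hn, hn2]
      field_simp
      linear_combination (c0 p) * hb
    · rw [c1_psi, hn, e0]; field_simp
    · rw [c2_psi, hn, e1]; field_simp
    · rw [c3_psi, hn, e2]; field_simp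
    · rw [c4_psi, e3]
  cover p hp := by
    have hS := mem_SR.1 hp
    by_cases h : c0 p < 1
    · refine ⟨true, ?_⟩
      change sgn true * c0 p < 1
      simpa [sgn] using h
    · refine ⟨false, ?_⟩
      change sgn false * c0 p < 1
      simp only [sgn, Bool.false_eq_true, if_false]
      linarith

/-- the manifold -/
abbrev XX : Type := Mfd dX

/-- the point of the manifold -/
def mk (x : ℍ[ℝ]) (hx : ‖x‖ = 1) (s : ℝ) : XX := ⟨pt x s, hx⟩

lemma inc_mk (x : ℍ[ℝ]) (hx : ‖x‖ = 1) (s : ℝ) : inc dX (mk x hx s) = pt x s := rfl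

lemma exists_mk (p : XX) : ∃ (x : ℍ[ℝ]) (hx : ‖x‖ = 1) (s : ℝ), p = mk x hx s :=
  ⟨p.1.fst, p.2, p.1.snd, rfl⟩

lemma mk_eq_iff {x y : ℍ[ℝ]} {hx : ‖x‖ = 1} {hy : ‖y‖ = 1} {s t : ℝ} :
    mk x hx s = mk y hy t ↔ x = y ∧ s = t := by
  constructor
  · intro h
    have h2 : pt x s = pt y t := congrArg (inc dX) h
    exact ⟨congrArg (fun p : F5 => p.fst) h2, congrArg (fun p : F5 => p.snd) h2⟩
  · rintro ⟨rfl, rfl⟩; rfl

end Pool.Agent.W538.Hom
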