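import Pool.Agent.W538.Hom.Grp

/-! Weak symmetry, constant displacement, and the failure of homogeneity. -/

open Set Filter Topology
open scoped Quaternion

noncomputable section

namespace Pool.Agent.W538.Hom

/-- a unit vector in the plane orthogonal to a given one -/
lemma exists_unit (a b : ℝ) : ∃ c d : ℝ, c ^ 2 + d ^ 2 = 1 ∧ c * a + d * b = 0 := by
  by_cases h : a ^ 2 + b ^ 2 = 0
  · refine ⟨1, 0, by norm_num, ?_⟩
    have : a = 0 := by nlinarith [sq_nonneg a, sq_nonneg b]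
    rw [this]; ring
  · have hpos : 0 < a ^ 2 + b ^ 2 := lt_of_le_of_ne (by positivity) (Ne.symm h)
    have hs := Real.sq_sqrt hpos.le
    have hs0 : Real.sqrt (a ^ 2 + b ^ 2) ≠ 0 := (Real.sqrt_pos.2 hpos).ne'
    refine ⟨-b / Real.sqrt (a ^ 2 + b ^ 2), a / Real.sqrt (a ^ 2 + b ^ 2), ?_, ?_⟩
    · rw [div_pow, div_pow, hs]
      field_simp
      ring
    · field_simp
      ring

/-- the anticommuting unit -/
def nv (c d : ℝ) : ℍ[ℝ] := ⟨0, 0, c, d⟩

@[simp] lemma nv_re (c d : ℝ) : (nv c d).re = 0 := rfl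
@[simp] lemma nv_imI (c d : ℝ) : (nv c d).imI = 0 := rfl
@[simp] lemma nv_imJ (c d : ℝ) : (nv c d).imJ = c := rfl
@[simp] lemma nv_imK (c d : ℝ) : (nv c d).imK = d := rfl

lemma norm_eq_one {x : ℍ[ℝ]} (h : x.re ^ 2 + x.imI ^ 2 + x.imJ ^ 2 + x.imK ^ 2 = 1) :
    ‖x‖ = 1 := by
  have h2 : ‖x‖ * ‖x‖ = 1 := by
    rw [← Quaternion.normSq_eq_norm_mul_self, Quaternion.normSq_def', h]
  nlinarith [norm_nonneg x]

lemma sq_sum_eq_one {x : ℍ[ℝ]} (h : ‖x‖ = 1) :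
    x.re ^ 2 + x.imI ^ 2 + x.imJ ^ 2 + x.imK ^ 2 = 1 := by
  rw [← Quaternion.normSq_def', Quaternion.normSq_eq_norm_mul_self, h, one_mul]

lemma norm_nv {c d : ℝ} (h : c ^ 2 + d ^ 2 = 1) : ‖nv c d‖ = 1 := by
  apply norm_eq_one
  simp only [nv_re, nv_imI, nv_imJ, nv_imK]
  linarith

lemma nv_sq {c d : ℝ} (h : c ^ 2 + d ^ 2 = 1) : nv c d * nv c d = -1 := by
  ext
  · simp; linarith
  · simp; ring
  · simp
  · simp

/-- a unit quaternion with zero real part has square `-1` -/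
lemma sq_neg_one {z : ℍ[ℝ]} (hz : ‖z‖ = 1) (h0 : z.re = 0) : z * z = -1 := by
  have := sq_sum_eq_one hz
  rw [h0] at this
  ext
  · simp [h0]; linarith
  · simp [h0]; ring
  · simp [h0]; ring
  · simp [h0]; ring

/-- the existence of the interchanging isometry of `S³ × ℝ` -/
lemma exists_swap (x y : ℍ[ℝ]) (hx : ‖x‖ = 1) (hy : ‖y‖ = 1) (s t : ℝ) :
    ∃ B : XX ≃ᵢ XX, B * sig * B⁻¹ = sig⁻¹ ∧ B (mk x hx s) = mk y hy t ∧
      B (mk y hy t) = mk x hx s := by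
  set m : ℍ[ℝ] := y * x⁻¹ with hm
  have hx0 := ne_zero_of_norm_one hx
  have hmn : ‖m‖ = 1 := by rw [hm, norm_mul, norm_inv_one hx, hy, one_mul]
  obtain ⟨c, d, h1, h2⟩ := exists_unit m.imJ m.imK
  set n := nv c d with hn
  have hnn : ‖n‖ = 1 := norm_nv h1
  have hn2 : n * n = -1 := nv_sq h1
  have hp : ‖-n‖ = 1 := by rw [norm_neg, hnn]
  have hq : ‖x⁻¹ * n * y‖ = 1 := norm_mul_mul (norm_inv_one hx) hy hnn
  have hnm : (n * m) * (n * m) = -1 := by
    apply sq_neg_one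
    · rw [norm_mul, hnn, hmn, one_mul]
    · simp only [Quaternion.re_mul, hn, nv_re, nv_imI, nv_imJ, nv_imK]
      linarith
  have hni : qi * n * qi = n := by
    ext <;> simp [hn]
  have hB : ∀ (u : ℍ[ℝ]) (hu : ‖u‖ = 1) (r : ℝ),
      T (-n) (x⁻¹ * n * y) hp hq (-1) (by norm_num) (s + t) (mk u hu r) =
        mk (-n * u * (x⁻¹ * n * y)) (norm_mul_mul hp hq hu) (-1 * r + (s + t)) :=
    fun u hu r => T_mk _ _ _ _ _ _ _ _ _ _
  generalize T (-n) (x⁻¹ * n * y) hp hq (-1) (by norm_num) (s + t) = B at hB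
  refine ⟨B, ?_, ?_, ?_⟩
  · rw [mul_inv_eq_iff_eq_mul, eq_inv_mul_iff_mul_eq]
    apply IsometryEquiv.ext
    intro P
    obtain ⟨u, hu, r, rfl⟩ := exists_mk P
    change sig (B (sig (mk u hu r))) = B (mk u hu r)
    rw [sig_mk, hB, sig_mk, hB, mk_eq_iff]
    constructor
    · have e : qi * (-n * (qi * u) * (x⁻¹ * n * y)) = -(qi * n * qi) * u * (x⁻¹ * n * y) := by
        simp only [neg_mul, mul_neg, mul_assoc]
      rw [e, hni]
    · ring
  · rw [hB, mk_eq_iff]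
    constructor
    · have e : -n * x * (x⁻¹ * n * y) = -(n * (x * x⁻¹) * n) * y := by
        simp only [neg_mul, mul_assoc]
      rw [e, mul_inv_cancel₀ hx0, mul_one, hn2, neg_neg, one_mul]
    · ring
  · rw [hB, mk_eq_iff]
    constructor
    · have e : -n * y * (x⁻¹ * n * y) = -((n * m) * (n * m)) * x := by
        have h3 : y = m * x := by rw [hm, mul_assoc, inv_mul_cancel₀ hx0, mul_one]
        have e2 : -n * (m * x) * (x⁻¹ * n * (m * x)) = -(n * m * (x * x⁻¹) * (n * m)) * x := by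
          simp only [neg_mul, mul_assoc]
        rw [← h3] at e2
        rw [e2, mul_inv_cancel₀ hx0, mul_one]
      rw [e, hnm, neg_neg, one_mul]
    · ring

/-- the first quotient is weakly symmetric -/
lemma weaklySymmetric_MM : WeaklySymmetric MM := by
  intro a b
  obtain ⟨P, rfl⟩ := proj_surj Sig a
  obtain ⟨Q, rfl⟩ := proj_surj Sig b
  obtain ⟨x, hx, s, rfl⟩ := exists_mk P
  obtain ⟨y, hy, t, rfl⟩ := exists_mk Q
  obtain ⟨B, hB, h1, h2⟩ := exists_swap x y hx hy s t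
  obtain ⟨n1, n2⟩ := norm_of_inv hB
  refine ⟨desc cov_Sig B n1 n2, ?_, ?_⟩
  · rw [desc_proj, h1]
  · rw [desc_proj, h2]

lemma rho_comm : rho * sig = sig * rho := by
  ext P
  obtain ⟨u, hu, r, rfl⟩ := exists_mk P
  change rho (sig (mk u hu r)) = sig (rho (mk u hu r))
  rw [sig_mk, rho_mk, rho_mk, sig_mk, mk_eq_iff]
  exact ⟨mul_assoc _ _ _, rfl⟩

/-- the isometry of the quotient -/
def rb : MM ≃ᵢ MM := desc cov_Sig rho (norm_of_comm rho_comm).1 (norm_of_comm rho_comm).2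

lemma rb_proj (P : XX) : rb (proj Sig P) = proj Sig (rho P) := rfl

lemma rb_zpow (k : ℤ) (P : XX) : (rb ^ k) (proj Sig P) = proj Sig ((rho ^ k) P) := by
  induction k using Int.induction_on generalizing P with
  | zero => rfl
  | succ n ih =>
    rw [zpow_add_one, zpow_add_one]
    change (rb ^ (n : ℤ)) (rb (proj Sig P)) = _
    rw [rb_proj, ih]
    rfl
  | pred n ih =>
    rw [zpow_sub_one, zpow_sub_one]
    change (rb ^ (-(n : ℤ))) (rb.symm (proj Sig P)) = _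
    have : rb.symm (proj Sig P) = proj Sig (rho.symm P) := by
      rw [IsometryEquiv.symm_apply_eq, rb_proj, rho.apply_symm_apply]
    rw [this, ih]
    rfl

/-- the second group -/
def Gam : Subgroup (MM ≃ᵢ MM) := Subgroup.zpowers rb

lemma ang_le_pi (x y : ℍ[ℝ]) : ang x y ≤ Real.pi := Real.arccos_le_pi _

/-- the displacement -/
lemma disp (k : ℤ) (a : MM) : dist a ((rb ^ k) a) = ang 1 (qi ^ k) := by
  obtain ⟨P, rfl⟩ := proj_surj Sig a
  obtain ⟨x, hx, s, rfl⟩ := exists_mk P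
  rw [rb_zpow, dist_proj, rho_zpow]
  have hnk : ‖x * qi ^ k‖ = 1 := by rw [norm_mul, norm_zpow_qi, hx, one_mul]
  have h0 : dist (mk x hx s) (mk (x * qi ^ k) hnk s) = ang 1 (qi ^ k) := by
    have e : ang x (x * qi ^ k) = ang 1 (qi ^ k) := by
      have := ang_mul_mul hx norm_one 1 (qi ^ k)
      rwa [mul_one, mul_one, mul_one] at this
    rw [dist_eq, e, sub_self]
    simp only [ne_eq, OfNat.ofNat_ne_zero, not_false_eq_true, zero_pow, add_zero]
    exact Real.sqrt_sq (ang_nonneg _ _)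
  apply le_antisymm
  · refine (D_le Sig _ _ Sig.one_mem).trans (le_of_eq ?_)
    exact h0
  · refine le_D Sig ?_
    rintro g ⟨l, rfl⟩
    change _ ≤ dist (mk x hx s) ((sig ^ l) (mk _ _ s))
    rw [sig_zpow]
    by_cases hl : l = 0
    · subst hl
      simp only [zpow_zero, one_mul, Int.cast_zero, mul_zero, add_zero]
      exact h0.ge
    · refine le_trans ?_ (four_le hl _ _ _ _ _)
      exact (ang_le_pi _ _).trans Real.pi_le_four

lemma ang_qi_zpow (k : ℤ) : qi ^ k = 1 ∨ 1 ≤ ang 1 (qi ^ k) := by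
  by_cases h : qi ^ k = 1
  · exact Or.inl h
  · right
    have h2 : (inner ℝ 1 (qi ^ k) : ℝ) ≤ 0 := by
      rw [Quaternion.inner_def]
      rcases qi_zpow_cases k with h | h | h | h
      · contradiction
      · rw [h]; simp
      · rw [h]; simp
      · rw [h]; simp
    have h3 : Real.pi / 2 ≤ ang 1 (qi ^ k) := by
      rw [← Real.arccos_zero]
      exact Real.arccos_le_arccos h2
    have := Real.pi_gt_three
    linarith

lemma cov_Gam : Cov Gam := by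
  intro a
  refine ⟨1, one_pos, ?_⟩
  rintro g ⟨k, rfl⟩ hg
  change 1 ≤ dist a ((rb ^ k) a)
  rw [disp]
  rcases ang_qi_zpow k with h | h
  · exfalso
    apply hg
    change rb ^ k = 1
    ext b
    apply eq_of_dist_eq_zero
    rw [dist_comm]
    change dist b ((rb ^ k) b) = 0
    rw [disp, h]
    unfold ang
    rw [sq_norm_eq norm_one, Real.arccos_one]
  · exact h

lemma constantDisplacement {g : MM ≃ᵢ MM} (hg : g ∈ Gam) : ConstantDisplacement g := by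
  obtain ⟨k, rfl⟩ := hg
  intro a b
  change dist a ((rb ^ k) a) = dist b ((rb ^ k) b)
  rw [disp, disp]

/-- the second quotient -/
abbrev QQ : Type := Orb Gam

instance : MetricSpace QQ := quotMet cov_Gam

lemma dist_proj' (P Q : MM) : dist (proj Gam P) (proj Gam Q) = D Gam P Q := rfl

lemma inner_re (x y : ℍ[ℝ]) : (inner ℝ x y : ℝ) =
    x.re * y.re + x.imI * y.imI + x.imJ * y.imJ + x.imK * y.imK := by
  rw [Quaternion.inner_def]
  simp

lemma re_zero {a b : ℍ[ℝ]} (ha : a = 1 ∨ a = qi ∨ a = -1 ∨ a = -qi)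
    (hb : b = 1 ∨ b = qi ∨ b = -1 ∨ b = -qi) : (inner ℝ 1 (a * (qj * b)) : ℝ) = 0 := by
  rw [inner_re]
  rcases ha with rfl | rfl | rfl | rfl <;> rcases hb with rfl | rfl | rfl | rfl <;> simp

lemma norm_qj : ‖qj‖ = 1 := norm_eq_one (by simp)

/-- the first point -/
def P1 : XX := mk 1 norm_one 0

/-- the far point -/
def P2 : XX := mk qj norm_qj 2

/-- the radius -/
def R0 : ℝ := Real.sqrt ((Real.pi / 2) ^ 2 + 2 ^ 2)

lemma far : R0 ≤ dist (proj Gam (proj Sig P1)) (proj Gam (proj Sig P2)) := by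
  rw [dist_proj']
  refine le_D Gam ?_
  rintro g ⟨l, rfl⟩
  change _ ≤ dist (proj Sig P1) ((rb ^ l) (proj Sig P2))
  rw [rb_zpow, dist_proj]
  refine le_D Sig ?_
  rintro g ⟨k, rfl⟩
  change _ ≤ dist P1 ((sig ^ k) ((rho ^ l) P2))
  unfold P1 P2
  rw [rho_zpow, sig_zpow, dist_eq]
  unfold R0 ang
  rw [re_zero (qi_zpow_cases k) (qi_zpow_cases l), Real.arccos_zero]
  apply Real.sqrt_le_sqrt
  have h1 : (2 : ℝ) ^ 2 ≤ (2 + 4 * (k : ℝ) - 0) ^ 2 := by
    have h2 : (2 : ℤ) ^ 2 ≤ (2 + 4 * k) ^ 2 := by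
      rcases lt_or_ge k 0 with h | h
      · nlinarith
      · nlinarith
    have h3 : (2 : ℝ) ^ 2 ≤ (2 + 4 * (k : ℝ)) ^ 2 := by exact_mod_cast h2
    simpa using h3
  linarith

/-- the second point -/
def x2 : ℍ[ℝ] := ⟨3 / 5, 0, 0, 4 / 5⟩

@[simp] lemma x2_re : x2.re = 3 / 5 := rfl
@[simp] lemma x2_imI : x2.imI = 0 := rfl
@[simp] lemma x2_imJ : x2.imJ = 0 := rfl
@[simp] lemma x2_imK : x2.imK = 4 / 5 := rfl

lemma norm_x2 : ‖x2‖ = 1 := norm_eq_one (by simp; norm_num)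

/-- the second point -/
def P3 : XX := mk x2 norm_x2 0

lemma near_aux {y : ℍ[ℝ]} (hy : ‖y‖ = 1) (t : ℝ) (k l : ℤ) :
    dist (proj Gam (proj Sig P3)) (proj Gam (proj Sig (mk y hy t))) ≤
      Real.sqrt (ang x2 (qi ^ k * (y * qi ^ l)) ^ 2 + (t + 4 * k) ^ 2) := by
  rw [dist_proj']
  refine (D_le Gam _ _ (Gam.zpow_mem (Subgroup.mem_zpowers rb) l)).trans ?_
  rw [rb_zpow, dist_proj]
  refine (D_le Sig _ _ (Sig.zpow_mem (Subgroup.mem_zpowers sig) k)).trans ?_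
  unfold P3
  rw [rho_zpow, sig_zpow, dist_eq, sub_zero]

lemma lt_R0 {a b : ℝ} (ha0 : 0 ≤ a) (ha : a ≤ Real.pi / 2) (hb : |b| ≤ 2)
    (h : a < Real.pi / 2 ∨ |b| < 2) : Real.sqrt (a ^ 2 + b ^ 2) < R0 := by
  unfold R0
  have hp := Real.pi_pos
  apply Real.sqrt_lt_sqrt (by positivity)
  have hb0 := abs_nonneg b
  rw [← sq_abs b]
  rcases h with h | h
  · have h1 : a ^ 2 < (Real.pi / 2) ^ 2 := by gcongr
    have h2 : |b| ^ 2 ≤ 2 ^ 2 := by gcongr
    linarith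
  · have h1 : a ^ 2 ≤ (Real.pi / 2) ^ 2 := by gcongr
    have h2 : |b| ^ 2 < 2 ^ 2 := by gcongr
    linarith

lemma qi_zpow_two : qi ^ (2 : ℤ) = -1 := by
  rw [show (2 : ℤ) = 1 + 1 by norm_num, zpow_add₀ qi_ne, zpow_one, qi_sq]

lemma flip (k l : ℤ) (y : ℍ[ℝ]) :
    (inner ℝ x2 (qi ^ k * (y * qi ^ (l + 2))) : ℝ) = - inner ℝ x2 (qi ^ k * (y * qi ^ l)) := by
  rw [zpow_add₀ qi_ne, qi_zpow_two, mul_neg_one, mul_neg, mul_neg, inner_neg_right]

lemma exists_nonneg (k : ℤ) (y : ℍ[ℝ]) :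
    ∃ l : ℤ, 0 ≤ (inner ℝ x2 (qi ^ k * (y * qi ^ l)) : ℝ) := by
  by_cases h : 0 ≤ (inner ℝ x2 (qi ^ k * (y * qi ^ (0 : ℤ))) : ℝ)
  · exact ⟨0, h⟩
  · refine ⟨0 + 2, ?_⟩
    rw [flip]
    linarith [not_le.1 h]

lemma exists_pos {k l : ℤ} {y : ℍ[ℝ]} (h : (inner ℝ x2 (qi ^ k * (y * qi ^ l)) : ℝ) ≠ 0) :
    ∃ l : ℤ, 0 < (inner ℝ x2 (qi ^ k * (y * qi ^ l)) : ℝ) := by
  rcases lt_or_gt_of_ne h with h | h
  · refine ⟨l + 2, ?_⟩
    rw [flip]
    linarith
  · exact ⟨l, h⟩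

lemma exists_ne {y : ℍ[ℝ]} (hy : ‖y‖ = 1) (κ : ℤ) (hκ : κ = 1 ∨ κ = -1) :
    ∃ k l : ℤ, (k = 0 ∨ k = κ) ∧ (inner ℝ x2 (qi ^ k * (y * qi ^ l)) : ℝ) ≠ 0 := by
  by_contra hcon
  push Not at hcon
  have h00 := hcon 0 0 (Or.inl rfl)
  have h01 := hcon 0 1 (Or.inl rfl)
  have h10 := hcon κ 0 (Or.inr rfl)
  have h11 := hcon κ 1 (Or.inr rfl)
  have hy' := sq_sum_eq_one hy
  rw [inner_re] at h00 h01 h10 h11
  rcases hκ with rfl | rfl
  · simp only [zpow_zero, one_mul, mul_one, zpow_one, Quaternion.re_mul, Quaternion.imI_mul,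
      Quaternion.imJ_mul, Quaternion.imK_mul, qi_re, qi_imI, qi_imJ, qi_imK, x2_re, x2_imI,
      x2_imJ, x2_imK] at h00 h01 h10 h11
    have e0 : y.re = 0 := by linarith
    have e1 : y.imI = 0 := by linarith
    have e2 : y.imJ = 0 := by linarith
    have e3 : y.imK = 0 := by linarith
    rw [e0, e1, e2, e3] at hy'
    norm_num at hy'
  · simp only [zpow_zero, one_mul, mul_one, zpow_one, zpow_neg, inv_qi, Quaternion.re_mul,
      Quaternion.imI_mul,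
      Quaternion.imJ_mul, Quaternion.imK_mul, Quaternion.re_neg, Quaternion.imI_neg,
      Quaternion.imJ_neg, Quaternion.imK_neg, qi_re, qi_imI, qi_imJ, qi_imK, x2_re, x2_imI,
      x2_imJ, x2_imK] at h00 h01 h10 h11
    have e0 : y.re = 0 := by linarith
    have e1 : y.imI = 0 := by linarith
    have e2 : y.imJ = 0 := by linarith
    have e3 : y.imK = 0 := by linarith
    rw [e0, e1, e2, e3] at hy'
    norm_num at hy'

lemma near1 {y : ℍ[ℝ]} (hy : ‖y‖ = 1) {t : ℝ} (ht : |t| ≤ 2) :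
    dist (proj Gam (proj Sig P3)) (proj Gam (proj Sig (mk y hy t))) < R0 := by
  rcases lt_or_eq_of_le ht with h | h
  · obtain ⟨l, hl⟩ := exists_nonneg 0 y
    refine (near_aux hy t 0 l).trans_lt ?_
    have e : t + 4 * ((0 : ℤ) : ℝ) = t := by simp
    rw [e]
    refine lt_R0 (ang_nonneg _ _) ?_ h.le (Or.inr h)
    unfold ang
    exact Real.arccos_le_pi_div_two.2 hl
  · obtain ⟨κ, hκ, hκ2⟩ : ∃ κ : ℤ, (κ = 1 ∨ κ = -1) ∧ |t + 4 * (κ : ℝ)| ≤ 2 := by
      rcases abs_eq (by norm_num : (0 : ℝ) ≤ 2) |>.1 h with h | h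
      · refine ⟨-1, Or.inr rfl, ?_⟩
        rw [h]; norm_num
      · refine ⟨1, Or.inl rfl, ?_⟩
        rw [h]; norm_num
    obtain ⟨k, l, hk, hkl⟩ := exists_ne hy κ hκ
    obtain ⟨l', hl'⟩ := exists_pos hkl
    have hkt : |t + 4 * (k : ℝ)| ≤ 2 := by
      rcases hk with rfl | rfl
      · simpa using ht
      · exact hκ2
    refine (near_aux hy t k l').trans_lt ?_
    have hang : ang x2 (qi ^ k * (y * qi ^ l')) < Real.pi / 2 := Real.arccos_lt_pi_div_two.2 hl'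
    exact lt_R0 (ang_nonneg _ _) hang.le hkt (Or.inl hang)

lemma near (q : QQ) : dist (proj Gam (proj Sig P3)) q < R0 := by
  obtain ⟨a, rfl⟩ := proj_surj Gam q
  obtain ⟨Q, rfl⟩ := proj_surj Sig a
  obtain ⟨y, hy, t, rfl⟩ := exists_mk Q
  set k : ℤ := round (-t / 4) with hk
  have h1 := abs_sub_round (-t / 4)
  rw [← hk] at h1
  have h2 : |t + 4 * (k : ℝ)| ≤ 2 := by
    rw [abs_le] at h1 ⊢
    constructor <;> linarith [h1.1, h1.2]
  have h3 : proj Sig (mk y hy t) = proj Sig (mk (qi ^ k * y)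
      (by rw [norm_mul, norm_zpow_qi, hy, one_mul]) (t + 4 * k)) := by
    rw [proj_eq_iff]
    exact ⟨sig ^ k, Sig.zpow_mem (Subgroup.mem_zpowers sig) k, sig_zpow k y hy t⟩
  rw [h3]
  exact near1 _ h2

lemma not_homogeneous : ¬ Homogeneous QQ := by
  intro h
  obtain ⟨f, hf⟩ := h (proj Gam (proj Sig P1)) (proj Gam (proj Sig P3))
  have h1 := near (f (proj Gam (proj Sig P2)))
  rw [← hf, f.dist_eq] at h1
  exact absurd far (not_le.2 h1)

end Pool.Agent.W538.Hom
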